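import Pool.Agent.Q215.MB.Stm

/-! Minimal Borel sets in the Wadge order on the line: the part `S_pull`. -/

set_option autoImplicit false

open Set Topology Filter

namespace Pool.Agent.Q278.MB

open Pool.Agent.Q215.MB

theorem exists_miss {C : Set (Set ℝ)} (hC : ¬ C.Countable) (hd : C.PairwiseDisjoint id)
    {B : Set ℝ} (hB : B.Countable) : ∃ P ∈ C, ∀ x ∈ P, x ∉ B := by
  by_contra hc
  push Not at hc
  apply hC
  choose! b hb using hc
  have hinj : InjOn b C := by
    intro P hP Q hQ h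
    by_contra hne
    have hdis := hd hP hQ hne
    exact Set.disjoint_left.1 hdis (hb P hP).1 (by rw [h]; exact (hb Q hQ).1)
  have hmaps : MapsTo b C B := fun P hP => (hb P hP).2
  exact MapsTo.countable_of_injOn hmaps hinj hB

theorem pull_aux (ht : S_trans) (l : ℝ → ℕ) (j : ℕ) (φ : ℝ → ℝ) (hT : TRU l j) (hφ : Continuous φ)
    (s t : ℝ) (hst : s < t) (h : φ s < φ t) (N' : Set ℝ) (hN : N'.Countable) :
    ∃ P : Set ℝ, P ⊆ Ioo s t ∧ Pc (fun x => l (φ x)) j 1 P ∧ ∀ x ∈ P, x ∉ N' := by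
  set A : ℝ → Set ℝ := fun y => {x | x ∈ Icc s t ∧ min y (φ t) ≤ φ x} with hA
  have hne : ∀ y, (A y).Nonempty := fun y => ⟨t, ⟨hst.le, le_refl t⟩, min_le_right _ _⟩
  have hbd : ∀ y, BddBelow (A y) := fun y => ⟨s, fun x hx => hx.1.1⟩
  have hcl : ∀ y, IsClosed (A y) := by
    intro y
    have : A y = Icc s t ∩ {x | min y (φ t) ≤ φ x} := rfl
    rw [this]
    exact isClosed_Icc.inter (isClosed_le continuous_const hφ)
  set τ : ℝ → ℝ := fun y => sInf (A y) with hτ
  have hmem : ∀ y, τ y ∈ A y := fun y => (hcl y).csInf_mem (hne y) (hbd y)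
  have hmono : Monotone τ := by
    intro y y' hyy
    refine csInf_le_csInf (hbd y) (hne y') ?_
    intro x hx
    exact ⟨hx.1, (min_le_min_right _ hyy).trans hx.2⟩
  have hφτ : ∀ y, φ s ≤ y → y ≤ φ t → φ (τ y) = y := by
    intro y h1 h2
    have h3 := (hmem y).2
    rw [min_eq_left h2] at h3
    refine le_antisymm ?_ h3
    by_contra hc
    push Not at hc
    have hs : s ≤ τ y := (hmem y).1.1
    obtain ⟨x, hx, hxy⟩ := intermediate_value_Icc hs (hφ.continuousOn) (⟨h1, h3⟩ : y ∈ Icc (φ s) (φ (τ y)))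
    have hxA : x ∈ A y := by
      refine ⟨⟨hx.1, hx.2.trans (hmem y).1.2⟩, ?_⟩
      rw [min_eq_left h2, hxy]
    have h4 : τ y ≤ x := csInf_le (hbd y) hxA
    have h5 : x = τ y := le_antisymm hx.2 h4
    rw [h5] at hxy
    exact absurd hxy hc.ne'
  have hD := hmono.countable_not_continuousAt
  obtain ⟨C, hC, hCd, hCP⟩ := hT (φ s) (φ t) h
  obtain ⟨P, hPC, hPB⟩ := exists_miss hC hCd (hD.union (hN.image φ))
  obtain ⟨hPI, hPc⟩ := hCP P hPC
  have hval : ∀ y ∈ P, φ (τ y) = y := fun y hy => hφτ y (hPI hy).1.le (hPI hy).2.le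
  refine ⟨τ '' P, ?_, ?_, ?_⟩
  · rintro _ ⟨y, hy, rfl⟩
    have h1 := (hmem y).1
    have h2 := hval y hy
    refine ⟨lt_of_le_of_ne h1.1 ?_, lt_of_le_of_ne h1.2 ?_⟩
    · intro e
      rw [← e] at h2
      exact absurd h2 (hPI hy).1.ne
    · intro e
      rw [e] at h2
      exact absurd h2 (hPI hy).2.ne'
  · refine ht l (fun x => l (φ x)) τ j 1 P (Or.inl ?_) ?_ ?_ hPc
    · intro y hy y' hy' hyy
      refine lt_of_le_of_ne (hmono hyy.le) fun e => ?_
      have h1 := hval y hy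
      have h2 := hval y' hy'
      rw [e, h2] at h1
      exact absurd h1 hyy.ne'
    · intro y hy
      by_contra hc
      refine hPB y hy (Or.inl ?_)
      intro hc2
      exact hc hc2.continuousWithinAt
    · intro y hy
      show l (φ (τ y)) = l y
      rw [hval y hy]
  · rintro _ ⟨y, hy, rfl⟩ hN2
    refine hPB y hy (Or.inr ⟨τ y, hN2, hval y hy⟩)

theorem t_pull : S_pull := by
  intro ht l j φ hT hφ s t hst hne N' hN
  rcases lt_or_gt_of_ne hne with h | h
  · exact pull_aux ht l j φ hT hφ s t hst h N' hN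
  · have hN2 : ((fun x : ℝ => -x) ⁻¹' N').Countable :=
      hN.preimage neg_injective
    obtain ⟨P, hP1, hP2, hP3⟩ := pull_aux ht l j (fun x => φ (-x)) hT
      (hφ.comp continuous_neg) (-t) (-s) (neg_lt_neg hst)
      (by simpa using h) _ hN2
    refine ⟨(fun x : ℝ => -x) '' P, ?_, ?_, ?_⟩
    · rintro _ ⟨x, hx, rfl⟩
      have := hP1 hx
      exact ⟨by linarith [this.2], by linarith [this.1]⟩
    · refine ht (fun x => l (φ (-x))) (fun x => l (φ x)) (fun x => -x) j 1 P (Or.inr ?_)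
        continuous_neg.continuousOn (fun x _ => rfl) hP2
      intro x _ y _ hxy
      exact neg_lt_neg hxy
    · rintro _ ⟨x, hx, rfl⟩ h2
      exact hP3 x hx h2

end Pool.Agent.Q278.MB
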