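import Pool.Agent.Q215.MB.Stm

/-! Minimal Borel sets in the Wadge order on the line: the part `S_quot`. -/

set_option autoImplicit false

open Set Topology Filter

namespace Pool.Agent.Q278.MB

open Pool.Agent.Q215.MB
open Pool.Agent.Q215.WR (Two Lim Flat S_col)

/-- `φ` is constant near `x` -/
def LC (φ : ℝ → ℝ) (x : ℝ) : Prop := ∃ ε : ℝ, 0 < ε ∧ ∀ y, |y - x| < ε → φ y = φ x

theorem const_of {φ : ℝ → ℝ} (hφ : Continuous φ) {u v : ℝ} (huv : u < v)
    (h : ∀ z, u < z → z < v → LC φ z) : ∀ x ∈ Icc u v, φ x = φ u := by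
  have h1 : ∀ a b, u < a → a ≤ b → b < v → φ b = φ a := by
    intro a b ha hab hb
    refine constant_of_has_deriv_right_zero (f := φ) (a := a) (b := b) hφ.continuousOn ?_ b
      ⟨hab, le_rfl⟩
    intro x hx
    obtain ⟨ε, hε, hc⟩ := h x (lt_of_lt_of_le ha hx.1) (lt_trans hx.2 hb)
    have h2 : φ =ᶠ[𝓝 x] fun _ => φ x := by
      filter_upwards [Metric.ball_mem_nhds x hε] with y hy
      exact hc y (by rwa [Metric.mem_ball, Real.dist_eq] at hy)
    exact ((hasDerivAt_const x (φ x)).congr_of_eventuallyEq h2).hasDerivWithinAt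
  set m := (u + v) / 2 with hm
  have hm1 : u < m := by linarith
  have hm2 : m < v := by linarith
  have h3 : Ioo u v ⊆ {x | φ x = φ m} := by
    intro x hx
    rcases le_total x m with h4 | h4
    · exact (h1 x m hx.1 h4 hm2).symm
    · exact h1 m x hm1 h4 hx.2
  have h5 : closure (Ioo u v) ⊆ {x | φ x = φ m} :=
    closure_minimal h3 (isClosed_eq hφ continuous_const)
  rw [closure_Ioo huv.ne] at h5
  intro x hx
  have h6 : φ x = φ m := h5 hx
  have h7 : φ u = φ m := h5 ⟨le_rfl, huv.le⟩
  rw [h6, h7]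

theorem lc_of {φ : ℝ → ℝ} {u v c : ℝ} (h : ∀ x ∈ Icc u v, φ x = c) {z : ℝ} (h1 : u < z)
    (h2 : z < v) : LC φ z := by
  refine ⟨min (z - u) (v - z), lt_min (by linarith) (by linarith), fun y hy => ?_⟩
  have h3 := abs_lt.1 hy
  have h4 := min_le_left (z - u) (v - z)
  have h5 := min_le_right (z - u) (v - z)
  rw [h y ⟨by linarith, by linarith⟩, h z ⟨h1.le, h2.le⟩]

theorem t_quot : S_quot := by
  intro hcol φ hφ hflat hunb
  set K : Set ℝ := {x | ¬ LC φ x} with hK
  have hconst : ∀ u v, u < v → (∀ z ∈ K, ¬ (u < z ∧ z < v)) → ∀ x ∈ Icc u v, φ x = φ u := by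
    intro u v huv h
    refine const_of hφ huv fun z h1 h2 => ?_
    by_contra hc
    exact h z hc ⟨h1, h2⟩
  have hKc : IsClosed K := by
    rw [← isOpen_compl_iff, Metric.isOpen_iff]
    intro x hx
    have hx' : LC φ x := by
      by_contra hc
      exact hx hc
    obtain ⟨ε, hε, hc⟩ := hx'
    refine ⟨ε / 2, by linarith, fun y hy => ?_⟩
    rw [Metric.mem_ball, Real.dist_eq] at hy
    refine not_not.2 (⟨ε / 2, by linarith, fun z hz => ?_⟩ : LC φ y)
    have h1 := abs_lt.1 hy
    have h2 := abs_lt.1 hz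
    rw [hc z (abs_lt.2 ⟨by linarith, by linarith⟩), hc y (abs_lt.2 ⟨by linarith, by linarith⟩)]
  have hKi : interior K = ∅ := by
    by_contra hc
    obtain ⟨x, hx⟩ := Set.nonempty_iff_ne_empty.2 hc
    obtain ⟨ε, hε, hb⟩ := Metric.isOpen_iff.1 isOpen_interior x hx
    obtain ⟨a, b, h1, h2, h3, h4⟩ := hflat (x - ε) (x + ε) (by linarith)
    have h5 : LC φ ((a + b) / 2) := lc_of h4 (by linarith) (by linarith)
    have h6 : (a + b) / 2 ∈ K := by
      apply interior_subset
      apply hb
      rw [Metric.mem_ball, Real.dist_eq, abs_lt]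
      constructor <;> linarith
    exact h6 h5
  have hKu : ∀ R : ℝ, (∃ x ∈ K, R < x) ∧ ∃ x ∈ K, x < R := by
    intro R
    constructor
    · by_contra hc
      push Not at hc
      obtain ⟨x, y, hx, hy, hne⟩ := (hunb R).1
      have key : ∀ x y, R < x → x < y → φ x = φ y := by
        intro x y hx hxy
        refine (hconst x y hxy (fun z hz h => ?_) y ⟨hxy.le, le_rfl⟩).symm
        linarith [hc z hz, h.1]
      rcases lt_trichotomy x y with h | h | h
      · exact hne (key x y hx h)
      · exact hne (by rw [h])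
      · exact hne (key y x hy h).symm
    · by_contra hc
      push Not at hc
      obtain ⟨x, y, hx, hy, hne⟩ := (hunb R).2
      have key : ∀ x y, y < R → x < y → φ x = φ y := by
        intro x y hy hxy
        refine (hconst x y hxy (fun z hz h => ?_) y ⟨hxy.le, le_rfl⟩).symm
        linarith [hc z hz, h.2]
      rcases lt_trichotomy x y with h | h | h
      · exact hne (key x y hy h)
      · exact hne (by rw [h])
      · exact hne (key y x hx h).symm
  have hKl : ∀ x ∈ K, Lim K x := by
    intro x hx ε hε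
    by_contra hc
    push Not at hc
    apply hx
    have h1 := hconst (x - ε) x (by linarith) (fun z hz h => by
      have := hc z hz h.2.ne
      rw [abs_of_neg (by linarith [h.2])] at this
      linarith [h.1])
    have h2 := hconst x (x + ε) (by linarith) (fun z hz h => by
      have := hc z hz h.1.ne'
      rw [abs_of_pos (by linarith [h.1])] at this
      linarith [h.2])
    refine ⟨ε, hε, fun y hy => ?_⟩
    have h3 := abs_lt.1 hy
    rcases le_total y x with h4 | h4
    · rw [h1 y ⟨by linarith, h4⟩, h1 x ⟨by linarith, le_rfl⟩]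
    · exact h2 y ⟨h4, by linarith⟩
  obtain ⟨q, hqm, hqc, hqs, hq⟩ := hcol K hKc hKi hKu hKl
  have hqφ : ∀ x y, q x = q y → φ x = φ y := by
    have aux : ∀ x y, x < y → q x = q y → φ x = φ y := by
      intro x y hxy h
      exact (hconst x y hxy ((hq x y hxy).1 h) y ⟨hxy.le, le_rfl⟩).symm
    intro x y h
    rcases lt_trichotomy x y with h1 | h1 | h1
    · exact aux x y h1 h
    · rw [h1]
    · exact (aux y x h1 h.symm).symm
  have hψ : ∀ x, φ x = (φ ∘ Function.surjInv hqs) (q x) := by
    intro x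
    exact hqφ _ _ (Function.surjInv_eq hqs (q x)).symm
  have hprop : IsProperMap q := by
    rw [isProperMap_iff_tendsto_cocompact]
    refine ⟨hqc, ?_⟩
    rw [cocompact_eq_atBot_atTop]
    refine Filter.Tendsto.sup_sup ?_ ?_
    · exact tendsto_atBot_atBot_of_monotone hqm fun b => by
        obtain ⟨a, ha⟩ := hqs b
        exact ⟨a, ha.le⟩
    · exact tendsto_atTop_atTop_of_monotone hqm fun b => by
        obtain ⟨a, ha⟩ := hqs b
        exact ⟨a, ha.ge⟩
  have hquot : IsQuotientMap q := hprop.isClosedMap.isQuotientMap hqc hqs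
  have hψc : Continuous (φ ∘ Function.surjInv hqs) := by
    rw [hquot.continuous_iff]
    have : (φ ∘ Function.surjInv hqs) ∘ q = φ := funext fun x => (hψ x).symm
    rw [this]
    exact hφ
  refine ⟨q, φ ∘ Function.surjInv hqs, hqm, hqc, hqs, hψc, hψ, ?_, ?_⟩
  · intro x y hxy
    by_contra hc
    push Not at hc
    set ψ := φ ∘ Function.surjInv hqs with hψd
    have h1 : closure (Ioo x y) ⊆ {z | ψ z = ψ x} :=
      closure_minimal (fun z hz => hc z hz.1 hz.2) (isClosed_eq hψc continuous_const)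
    rw [closure_Ioo hxy.ne] at h1
    obtain ⟨x', hx'⟩ := hqs x
    obtain ⟨y', hy'⟩ := hqs y
    have hlt : x' < y' := by
      by_contra h2
      push Not at h2
      have := hqm h2
      rw [hx', hy'] at this
      linarith
    have h3 : ∀ w ∈ Icc x' y', φ w = ψ x := by
      intro w hw
      rw [hψ w]
      apply h1
      rw [← hx', ← hy']
      exact ⟨hqm hw.1, hqm hw.2⟩
    have h4 : q x' = q y' := (hq x' y' hlt).2 fun z hz h => hz (lc_of h3 h.1 h.2)
    rw [hx', hy'] at h4
    linarith
  · refine (Set.countable_range fun r : ℚ => q r).mono ?_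
    rintro y ⟨a, b, hab, ha, hb⟩
    obtain ⟨r, hr1, hr2⟩ := exists_rat_btwn hab
    refine ⟨r, le_antisymm ?_ ?_⟩
    · exact (hqm hr2.le).trans hb.le
    · rw [← ha]; exact hqm hr1.le

end Pool.Agent.Q278.MB
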